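import Mathlib

/-!
# Sofic actions on sets: definitions
-/

namespace Pool.Agent.Helper2.Sofic

noncomputable section

/-- The normalized Hamming distance of two permutations of a finite set `A`. -/
def hdist {A : Type} (σ τ : Equiv.Perm A) : ℝ :=
  (Nat.card {a : A // σ a ≠ τ a} : ℝ) / (Nat.card A : ℝ)

/-- `φ : G → Sym(A)` is `(F, ε)`-multiplicative. -/
def IsMult {G : Type} [Group G] {A : Type} (φ : G → Equiv.Perm A) (F : Finset G) (ε : ℝ) :
    Prop :=
  ∀ g ∈ F, ∀ h ∈ F, hdist (φ (g * h)) (φ g * φ h) < ε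

/-- `φ : G → Sym(A)` is an `(F, E, ε)`-orbit approximation of the action `α`. -/
def IsOrbitApprox {G X : Type} [Group G] (α : G →* Equiv.Perm X) {A : Type}
    (φ : G → Equiv.Perm A) (F : Finset G) (E : Finset X) (ε : ℝ) : Prop :=
  ∃ (B : Type) (_ : Finite B) (S : Set A) (π : A → X → B),
    (1 - ε) * (Nat.card A : ℝ) < (Nat.card S : ℝ) ∧
    (∀ s ∈ S, Set.InjOn (π s) (E : Set X)) ∧
    ∀ s ∈ S, ∀ g ∈ F, ∀ x ∈ E, φ g s ∈ S → α g⁻¹ x ∈ E → π (φ g s) x = π s (α g⁻¹ x)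

/-- The action `α` of `G` on `X` is sofic. -/
def IsSofic {G X : Type} [Group G] (α : G →* Equiv.Perm X) : Prop :=
  ∀ (F : Finset G) (E : Finset X) (ε : ℝ), 0 < ε →
    ∃ (A : Type) (_ : Finite A) (φ : G → Equiv.Perm A),
      φ 1 = 1 ∧ IsMult φ F ε ∧ IsOrbitApprox α φ F E ε

/-- Følner's condition for the elements of `P ⊆ G` acting on the set `Z ⊆ X`. -/
def IsFolner {G X : Type} [Group G] (α : G →* Equiv.Perm X) (P : Set G) (Z : Set X) : Prop :=
  ∀ (F : Finset G), (F : Set G) ⊆ P → ∀ ε : ℝ, 0 < ε →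
    ∃ Φ : Finset X, Φ.Nonempty ∧ (Φ : Set X) ⊆ Z ∧
      ∀ g ∈ F, (Nat.card {z : X // z ∈ Φ ∧ α g z ∉ Φ} : ℝ) ≤ ε * (Φ.card : ℝ)

/-- The direct sum `⨁ i, G i`: the finitely supported families in `Π i, G i`. -/
def DSum {I : Type} (G : I → Type) [∀ i, Group (G i)] : Subgroup (∀ i, G i) where
  carrier := {f | {i | f i ≠ 1}.Finite}
  one_mem' := by simp
  mul_mem' := by
    intro f g hf hg
    refine Set.Finite.subset (Set.Finite.union hf hg) ?_
    intro i hi
    by_contra hcon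
    simp only [Set.mem_union, Set.mem_ofPred_eq, not_or, not_not] at hcon
    exact hi (by simp [Pi.mul_apply, hcon.1, hcon.2])
  inv_mem' := by
    intro f hf
    refine Set.Finite.subset hf ?_
    intro i hi
    simpa using hi

end

end Pool.Agent.Helper2.Sofic
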