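import Pool.Agent.Helper2.Sofic.Defs

/-!
# Basic closure properties of sofic actions
-/

namespace Pool.Agent.Helper2.Sofic

open Finset

noncomputable section

/-! ### Basic closure properties -/

theorem IsSofic.pullback {G H X : Type} [Group G] [Group H] (f : G →* H)
    {α : H →* Equiv.Perm X} (h : IsSofic α) : IsSofic (α.comp f) := by
  classical
  intro F E ε hε
  obtain ⟨A, hA, φ, h1, h2, B, hB, S, π, hS, hinj, heq⟩ := h (F.image f) E ε hε
  refine ⟨A, hA, fun g => φ (f g), by simp [h1], ?_, B, hB, S, π, hS, hinj, ?_⟩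
  · intro g hg k hk
    have := h2 (f g) (mem_image_of_mem f hg) (f k) (mem_image_of_mem f hk)
    simpa using this
  · intro s hs g hg x hx h3 h4
    have := heq s hs (f g) (mem_image_of_mem f hg) x hx h3 (by simpa using h4)
    simpa using this

/-- In an orbit approximation the set of colours may be infinite. -/
theorem isOrbitApprox_of_any {G X : Type} [Group G] (α : G →* Equiv.Perm X) {A : Type}
    [Finite A] (φ : G → Equiv.Perm A) (F : Finset G) (E : Finset X) (ε : ℝ)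
    (B : Type) (S : Set A) (π : A → X → B)
    (hS : (1 - ε) * (Nat.card A : ℝ) < (Nat.card S : ℝ))
    (hinj : ∀ s ∈ S, Set.InjOn (π s) (E : Set X))
    (heq : ∀ s ∈ S, ∀ g ∈ F, ∀ x ∈ E, φ g s ∈ S → α g⁻¹ x ∈ E →
      π (φ g s) x = π s (α g⁻¹ x)) : IsOrbitApprox α φ F E ε := by
  classical
  let W : Set B := (fun p : A × X => π p.1 p.2) '' (Set.univ ×ˢ (E : Set X))
  have hW : W.Finite := by
    apply Set.Finite.image
    exact Set.Finite.prod Set.finite_univ (Finset.finite_toSet E)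
  have : Finite W := hW
  have hmem : ∀ (s : A) (x : X), x ∈ E → π s x ∈ W := by
    intro s x hx
    exact ⟨(s, x), ⟨Set.mem_univ _, hx⟩, rfl⟩
  refine ⟨Option W, inferInstance, S,
    fun s x => if h : x ∈ E then some ⟨π s x, hmem s x h⟩ else none, hS, ?_, ?_⟩
  · intro s hs x hx y hy hxy
    have hx' : x ∈ E := hx
    have hy' : y ∈ E := hy
    simp only [hx', hy', dif_pos, Option.some.injEq, Subtype.mk.injEq] at hxy
    exact hinj s hs hx hy hxy
  · intro s hs g hg x hx h3 h4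
    simp only [hx, h4, dif_pos, Option.some.injEq, Subtype.mk.injEq]
    exact heq s hs g hg x hx h3 h4

theorem hdist_self {A : Type} (σ : Equiv.Perm A) : hdist σ σ = 0 := by
  unfold hdist
  have : IsEmpty {a : A // σ a ≠ σ a} := ⟨fun a => a.2 rfl⟩
  rw [Nat.card_of_isEmpty]
  simp

theorem isSofic_trivial {G X : Type} [Group G] (α : G →* Equiv.Perm X)
    (h : ∀ g, α g = 1) : IsSofic α := by
  intro F E ε hε
  refine ⟨Unit, inferInstance, fun _ => 1, rfl, ?_, ?_⟩
  · intro g _ k _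
    simp only [mul_one]
    rw [hdist_self]
    exact hε
  · refine isOrbitApprox_of_any α _ F E ε X Set.univ (fun _ x => x) ?_ ?_ ?_
    · simp [hε]
    · intro s _ x _ y _ hxy
      exact hxy
    · intro s _ g _ x _ _ _
      simp [h]

/-- The action of `G × H` on `X × Y`. -/
def prodAct {G H X Y : Type} [Group G] [Group H] (α : G →* Equiv.Perm X)
    (β : H →* Equiv.Perm Y) : G × H →* Equiv.Perm (X × Y) where
  toFun p := Equiv.prodCongr (α p.1) (β p.2)
  map_one' := by
    ext p <;> simp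
  map_mul' p q := by
    ext r <;> simp

theorem hdist_prod_le {A B : Type} [Finite A] [Finite B] (σ τ : Equiv.Perm A)
    (σ' τ' : Equiv.Perm B) :
    hdist (Equiv.prodCongr σ σ' : Equiv.Perm (A × B)) (Equiv.prodCongr τ τ') ≤
      hdist σ τ + hdist σ' τ' := by
  classical
  unfold hdist
  have hcard : Nat.card {p : A × B // (Equiv.prodCongr σ σ') p ≠ (Equiv.prodCongr τ τ') p} ≤
      Nat.card {a : A // σ a ≠ τ a} * Nat.card B + Nat.card A * Nat.card {b : B // σ' b ≠ τ' b} := by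
    rw [← Nat.card_prod, ← Nat.card_prod, ← Nat.card_sum]
    let f : {p : A × B // (Equiv.prodCongr σ σ') p ≠ (Equiv.prodCongr τ τ') p} →
        ({a : A // σ a ≠ τ a} × B) ⊕ (A × {b : B // σ' b ≠ τ' b}) := fun p =>
      if h : σ p.1.1 ≠ τ p.1.1 then Sum.inl (⟨p.1.1, h⟩, p.1.2)
      else Sum.inr (p.1.1, ⟨p.1.2, fun h' => p.2 (by
        simp only [ne_eq, not_not] at h
        ext
        · exact h
        · exact h')⟩)
    apply Nat.card_le_card_of_injective f
    intro p q hpq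
    simp only [f] at hpq
    split_ifs at hpq with h1 h2 h2
    · simp only [Sum.inl.injEq, Prod.mk.injEq, Subtype.mk.injEq] at hpq
      exact Subtype.ext (Prod.ext hpq.1 hpq.2)
    · simp only [Sum.inr.injEq, Prod.mk.injEq, Subtype.mk.injEq] at hpq
      exact Subtype.ext (Prod.ext hpq.1 hpq.2)
  rcases isEmpty_or_nonempty A with hA | hA
  · simp only [Nat.card_of_isEmpty, Nat.cast_zero, div_zero, zero_add]
    positivity
  rcases isEmpty_or_nonempty B with hB | hB
  · simp only [Nat.card_of_isEmpty, Nat.cast_zero, div_zero, add_zero]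
    positivity
  have ha : (0 : ℝ) < (Nat.card A : ℝ) := by exact_mod_cast Nat.card_pos
  have hb : (0 : ℝ) < (Nat.card B : ℝ) := by exact_mod_cast Nat.card_pos
  rw [Nat.card_prod, Nat.cast_mul, div_le_iff₀ (mul_pos ha hb)]
  have h3 : (Nat.card {p : A × B // (Equiv.prodCongr σ σ') p ≠ (Equiv.prodCongr τ τ') p} : ℝ) ≤
      (Nat.card {a : A // σ a ≠ τ a} : ℝ) * (Nat.card B : ℝ) +
        (Nat.card A : ℝ) * (Nat.card {b : B // σ' b ≠ τ' b} : ℝ) := by
    exact_mod_cast hcard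
  refine h3.trans (le_of_eq ?_)
  field_simp

theorem IsSofic.prod {G H X Y : Type} [Group G] [Group H] {α : G →* Equiv.Perm X}
    {β : H →* Equiv.Perm Y} (hα : IsSofic α) (hβ : IsSofic β) : IsSofic (prodAct α β) := by
  classical
  intro F E ε hε
  set δ : ℝ := min (ε / 2) (1 / 2) with hδdef
  have hδ : 0 < δ := by
    rw [hδdef]
    exact lt_min (by linarith) (by norm_num)
  have hδ1 : δ ≤ ε / 2 := min_le_left _ _
  have hδ2 : δ ≤ 1 / 2 := min_le_right _ _
  obtain ⟨A₁, hA₁, φ₁, h11, h12, B₁, hB₁, S₁, π₁, hS₁, hinj₁, heq₁⟩ :=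
    hα (F.image Prod.fst) (E.image Prod.fst) δ hδ
  obtain ⟨A₂, hA₂, φ₂, h21, h22, B₂, hB₂, S₂, π₂, hS₂, hinj₂, heq₂⟩ :=
    hβ (F.image Prod.snd) (E.image Prod.snd) δ hδ
  refine ⟨A₁ × A₂, inferInstance, fun p => Equiv.prodCongr (φ₁ p.1) (φ₂ p.2), ?_, ?_, ?_⟩
  · ext p <;> simp [h11, h21]
  · intro p hp q hq
    have e : (Equiv.prodCongr (φ₁ p.1) (φ₂ p.2) : Equiv.Perm (A₁ × A₂)) *
        Equiv.prodCongr (φ₁ q.1) (φ₂ q.2) =
        Equiv.prodCongr (φ₁ p.1 * φ₁ q.1) (φ₂ p.2 * φ₂ q.2) := by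
      ext r <;> simp
    simp only [e]
    refine (hdist_prod_le _ _ _ _).trans_lt ?_
    have i1 := h12 p.1 (mem_image_of_mem _ hp) q.1 (mem_image_of_mem _ hq)
    have i2 := h22 p.2 (mem_image_of_mem _ hp) q.2 (mem_image_of_mem _ hq)
    simp only [Prod.fst_mul, Prod.snd_mul]
    linarith
  · refine isOrbitApprox_of_any _ _ F E ε (B₁ × B₂) (S₁ ×ˢ S₂)
      (fun s x => (π₁ s.1 x.1, π₂ s.2 x.2)) ?_ ?_ ?_
    · have hcard : Nat.card (S₁ ×ˢ S₂ : Set (A₁ × A₂)) = Nat.card S₁ * Nat.card S₂ := by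
        rw [← Nat.card_prod]
        exact Nat.card_congr (Equiv.Set.prod S₁ S₂)
      rw [hcard, Nat.card_prod, Nat.cast_mul, Nat.cast_mul]
      have a1 : (0 : ℝ) ≤ (Nat.card A₁ : ℝ) := Nat.cast_nonneg _
      have a2 : (0 : ℝ) ≤ (Nat.card A₂ : ℝ) := Nat.cast_nonneg _
      have e1 : (1 - δ) * (Nat.card A₁ : ℝ) * ((1 - δ) * (Nat.card A₂ : ℝ)) <
          (Nat.card S₁ : ℝ) * (Nat.card S₂ : ℝ) := by
        apply mul_lt_mul'' hS₁ hS₂
        · exact mul_nonneg (by linarith) a1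
        · exact mul_nonneg (by linarith) a2
      have e2 : (1 - ε) * ((Nat.card A₁ : ℝ) * (Nat.card A₂ : ℝ)) ≤
          (1 - δ) * (Nat.card A₁ : ℝ) * ((1 - δ) * (Nat.card A₂ : ℝ)) := by
        have : (1 - δ) * (Nat.card A₁ : ℝ) * ((1 - δ) * (Nat.card A₂ : ℝ)) =
          ((1 - δ) * (1 - δ)) * ((Nat.card A₁ : ℝ) * (Nat.card A₂ : ℝ)) := by ring
        rw [this]
        apply mul_le_mul_of_nonneg_right _ (mul_nonneg a1 a2)
        nlinarith [sq_nonneg δ]
      linarith
    · intro s hs x hx y hy hxy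
      simp only [Prod.mk.injEq] at hxy
      have hx1 : x.1 ∈ ((E.image Prod.fst : Finset X) : Set X) :=
        Finset.mem_coe.2 (mem_image_of_mem _ (Finset.mem_coe.1 hx))
      have hy1 : y.1 ∈ ((E.image Prod.fst : Finset X) : Set X) :=
        Finset.mem_coe.2 (mem_image_of_mem _ (Finset.mem_coe.1 hy))
      have hx2 : x.2 ∈ ((E.image Prod.snd : Finset Y) : Set Y) :=
        Finset.mem_coe.2 (mem_image_of_mem _ (Finset.mem_coe.1 hx))
      have hy2 : y.2 ∈ ((E.image Prod.snd : Finset Y) : Set Y) :=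
        Finset.mem_coe.2 (mem_image_of_mem _ (Finset.mem_coe.1 hy))
      exact Prod.ext (hinj₁ s.1 hs.1 hx1 hy1 hxy.1) (hinj₂ s.2 hs.2 hx2 hy2 hxy.2)
    · intro s hs p hp x hx h3 h4
      have i1 := heq₁ s.1 hs.1 p.1 (mem_image_of_mem _ hp) x.1 (mem_image_of_mem _ hx) h3.1
        (by
          have := mem_image_of_mem Prod.fst h4
          simpa [prodAct] using this)
      have i2 := heq₂ s.2 hs.2 p.2 (mem_image_of_mem _ hp) x.2 (mem_image_of_mem _ hx) h3.2
        (by
          have := mem_image_of_mem Prod.snd h4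
          simpa [prodAct] using this)
      simp only [prodAct, MonoidHom.coe_mk, OneHom.coe_mk, Equiv.prodCongr_apply, Prod.map_fst,
        Prod.map_snd, Prod.fst_inv, Prod.snd_inv, Prod.mk.injEq]
      exact ⟨i1, i2⟩

end

end Pool.Agent.Helper2.Sofic
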