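import Mathlib

/-!
# Counting linear orders
-/

namespace Pool.Agent.Helper2.Sofic

open Finset

noncomputable section

/-! ### Random orders -/

/-- For a nonempty finite set `U ⊆ B`, each `b ∈ U` is the maximum of `U` in at most a
proportion `1 / |U|` of the linear orders of `B`. -/
theorem count_argmax {B : Type} [Finite B] {n : ℕ} (U : Finset B) (b : B) (hb : b ∈ U) :
    Nat.card {τ : B ≃ Fin n // ∀ u ∈ U, τ u ≤ τ b} * U.card ≤ Nat.card (B ≃ Fin n) := by
  classical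
  have hEq : ∀ c ∈ U, Nat.card {τ : B ≃ Fin n // ∀ u ∈ U, τ u ≤ τ c} =
      Nat.card {τ : B ≃ Fin n // ∀ u ∈ U, τ u ≤ τ b} := by
    intro c hc
    apply Nat.card_congr
    have hswap : ∀ u ∈ U, Equiv.swap b c u ∈ U := by
      intro u hu
      rw [Equiv.swap_apply_def]
      split_ifs <;> assumption
    refine
      { toFun := fun τ => ⟨(Equiv.swap b c).trans τ.1, ?_⟩
        invFun := fun τ => ⟨(Equiv.swap b c).trans τ.1, ?_⟩
        left_inv := ?_
        right_inv := ?_ }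
    · intro u hu
      simp only [Equiv.trans_apply, Equiv.swap_apply_left]
      exact τ.2 _ (hswap u hu)
    · intro u hu
      simp only [Equiv.trans_apply, Equiv.swap_apply_right]
      exact τ.2 _ (hswap u hu)
    · intro τ
      apply Subtype.ext
      ext u
      simp
    · intro τ
      apply Subtype.ext
      ext u
      simp
  have hsum : Nat.card (Σ c : {c : B // c ∈ U}, {τ : B ≃ Fin n // ∀ u ∈ U, τ u ≤ τ c.1}) =
      Nat.card {τ : B ≃ Fin n // ∀ u ∈ U, τ u ≤ τ b} * U.card := by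
    rw [Nat.card_sigma]
    rw [Finset.sum_congr rfl (fun c _ => hEq c.1 c.2)]
    rw [Finset.sum_const, smul_eq_mul, mul_comm]
    congr 1
    simp
  rw [← hsum]
  apply Nat.card_le_card_of_injective (fun p => p.2.1)
  rintro ⟨⟨c, hc⟩, ⟨τ, hτ⟩⟩ ⟨⟨c', hc'⟩, ⟨τ', hτ'⟩⟩ h
  simp only at h
  subst h
  have h1 : τ c = τ c' := le_antisymm (hτ' c hc) (hτ c' hc')
  have h2 : c = c' := τ.injective h1
  subst h2
  rfl

/-- The proportion of linear orders in which the maximum of `U` exceeds that of `V` is at most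
`|U \ V| / |U|`. -/
theorem count_sup_lt {B : Type} [Finite B] [DecidableEq B] {n : ℕ} (U V : Finset B)
    (hU : U.Nonempty) :
    Nat.card {τ : B ≃ Fin n // V.sup (fun v => (τ v : ℕ)) < U.sup (fun u => (τ u : ℕ))} *
      U.card ≤ (U \ V).card * Nat.card (B ≃ Fin n) := by
  classical
  have h1 : Nat.card {τ : B ≃ Fin n // V.sup (fun v => (τ v : ℕ)) < U.sup (fun u => (τ u : ℕ))} ≤
      Nat.card (Σ b : {b : B // b ∈ U \ V}, {τ : B ≃ Fin n // ∀ u ∈ U, τ u ≤ τ b.1}) := by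
    have hex : ∀ τ : {τ : B ≃ Fin n //
        V.sup (fun v => (τ v : ℕ)) < U.sup (fun u => (τ u : ℕ))},
        ∃ b : {b : B // b ∈ U \ V}, ∀ u ∈ U, τ.1 u ≤ τ.1 b.1 := by
      rintro ⟨τ, hτ⟩
      obtain ⟨b, hb, hbmax⟩ := Finset.exists_mem_eq_sup U hU (fun u => (τ u : ℕ))
      refine ⟨⟨b, ?_⟩, ?_⟩
      · rw [Finset.mem_sdiff]
        refine ⟨hb, fun hbV => ?_⟩
        have : (τ b : ℕ) ≤ V.sup (fun v => (τ v : ℕ)) :=
          Finset.le_sup (f := fun v => (τ v : ℕ)) hbV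
        omega
      · intro u hu
        have : (τ u : ℕ) ≤ U.sup (fun v => (τ v : ℕ)) :=
          Finset.le_sup (f := fun v => (τ v : ℕ)) hu
        rw [hbmax] at this
        exact this
    choose b hb using hex
    apply Nat.card_le_card_of_injective (fun τ => ⟨b τ, ⟨τ.1, hb τ⟩⟩)
    intro τ τ' h
    simp only [Sigma.mk.injEq] at h
    have h2 : (⟨b τ, ⟨τ.1, hb τ⟩⟩ : Σ b : {b : B // b ∈ U \ V},
      {τ : B ≃ Fin n // ∀ u ∈ U, τ u ≤ τ b.1}).2.1 =
      (⟨b τ', ⟨τ'.1, hb τ'⟩⟩ : Σ b : {b : B // b ∈ U \ V},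
      {τ : B ≃ Fin n // ∀ u ∈ U, τ u ≤ τ b.1}).2.1 := by
      have h3 : (⟨b τ, ⟨τ.1, hb τ⟩⟩ : Σ b : {b : B // b ∈ U \ V},
        {τ : B ≃ Fin n // ∀ u ∈ U, τ u ≤ τ b.1}) = ⟨b τ', ⟨τ'.1, hb τ'⟩⟩ := by
        exact Sigma.ext h.1 h.2
      rw [h3]
    exact Subtype.ext h2
  have h2 : Nat.card (Σ b : {b : B // b ∈ U \ V}, {τ : B ≃ Fin n // ∀ u ∈ U, τ u ≤ τ b.1}) *
      U.card ≤ (U \ V).card * Nat.card (B ≃ Fin n) := by
    rw [Nat.card_sigma, Finset.sum_mul]
    have h3 : ∀ b ∈ (Finset.univ : Finset {b : B // b ∈ U \ V}),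
        Nat.card {τ : B ≃ Fin n // ∀ u ∈ U, τ u ≤ τ b.1} * U.card ≤ Nat.card (B ≃ Fin n) := by
      intro b _
      exact count_argmax U b.1 (Finset.mem_sdiff.1 b.2).1
    refine (Finset.sum_le_sum h3).trans ?_
    rw [Finset.sum_const, smul_eq_mul]
    apply le_of_eq
    congr 1
    simp
  calc _ ≤ Nat.card (Σ b : {b : B // b ∈ U \ V}, {τ : B ≃ Fin n // ∀ u ∈ U, τ u ≤ τ b.1}) *
      U.card := Nat.mul_le_mul_right _ h1
    _ ≤ _ := h2

/-- The proportion of linear orders in which the maxima of `U` and `V` differ. -/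
theorem count_sup_ne {B : Type} [Finite B] [DecidableEq B] {n : ℕ} (U V : Finset B) (N M : ℕ)
    (hU : U.card = N) (hV : V.card = N) (hN : 0 < N) (hUV : (U \ V).card ≤ M)
    (hVU : (V \ U).card ≤ M) :
    Nat.card {τ : B ≃ Fin n // U.sup (fun v => (τ v : ℕ)) ≠ V.sup (fun u => (τ u : ℕ))} * N ≤
      2 * M * Nat.card (B ≃ Fin n) := by
  classical
  have hUne : U.Nonempty := Finset.card_pos.1 (by omega)
  have hVne : V.Nonempty := Finset.card_pos.1 (by omega)
  have h1 := count_sup_lt (n := n) U V hUne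
  have h2 := count_sup_lt (n := n) V U hVne
  rw [hU] at h1
  rw [hV] at h2
  have h3 : Nat.card {τ : B ≃ Fin n //
      U.sup (fun v => (τ v : ℕ)) ≠ V.sup (fun u => (τ u : ℕ))} ≤
      Nat.card {τ : B ≃ Fin n // V.sup (fun v => (τ v : ℕ)) < U.sup (fun u => (τ u : ℕ))} +
      Nat.card {τ : B ≃ Fin n // U.sup (fun v => (τ v : ℕ)) < V.sup (fun u => (τ u : ℕ))} := by
    rw [← Nat.card_sum]
    apply Nat.card_le_card_of_injective (fun τ =>
      if h : V.sup (fun v => (τ.1 v : ℕ)) < U.sup (fun u => (τ.1 u : ℕ)) then Sum.inl ⟨τ.1, h⟩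
      else Sum.inr ⟨τ.1, by
        have := τ.2
        omega⟩)
    intro τ τ' h
    simp only at h
    split_ifs at h with h1 h2 h2
    · simp only [Sum.inl.injEq, Subtype.mk.injEq] at h
      exact Subtype.ext h
    · simp only [Sum.inr.injEq, Subtype.mk.injEq] at h
      exact Subtype.ext h
  calc _ ≤ (Nat.card {τ : B ≃ Fin n //
        V.sup (fun v => (τ v : ℕ)) < U.sup (fun u => (τ u : ℕ))} +
      Nat.card {τ : B ≃ Fin n // U.sup (fun v => (τ v : ℕ)) < V.sup (fun u => (τ u : ℕ))}) * N :=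
        Nat.mul_le_mul_right _ h3
    _ ≤ (U \ V).card * Nat.card (B ≃ Fin n) + (V \ U).card * Nat.card (B ≃ Fin n) := by
        rw [add_mul]
        exact add_le_add h1 h2
    _ ≤ M * Nat.card (B ≃ Fin n) + M * Nat.card (B ≃ Fin n) :=
        add_le_add (Nat.mul_le_mul_right _ hUV) (Nat.mul_le_mul_right _ hVU)
    _ = _ := by ring

end

end Pool.Agent.Helper2.Sofic
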