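import Pool.Agent.Helper2.Sofic.Basic
import Pool.Agent.Helper2.Sofic.Count

/-!
# Passing to a co-amenable overgroup of the stabilizers
-/

namespace Pool.Agent.Helper2.Sofic

open Finset

noncomputable section

/-! ### Passing to a co-amenable overgroup of the stabilizers -/

/-- The orbit equivalence relation. -/
def orbSetoid {G X : Type} [Group G] (α : G →* Equiv.Perm X) : Setoid X where
  r x y := ∃ g, α g x = y
  iseqv :=
    { refl := fun x => ⟨1, by simp⟩
      symm := by
        rintro x y ⟨g, rfl⟩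
        exact ⟨g⁻¹, by simp⟩
      trans := by
        rintro x y z ⟨g, rfl⟩ ⟨h, rfl⟩
        exact ⟨h * g, by simp⟩ }

theorem exists_orbit_rep {G X : Type} [Group G] (α : G →* Equiv.Perm X) :
    ∃ (r : X → X) (c : X → G), (∀ x, α (c x) (r x) = x) ∧ ∀ g x, r (α g x) = r x := by
  classical
  let s := orbSetoid α
  let r : X → X := fun x => Quotient.out (Quotient.mk s x)
  have h1 : ∀ x, ∃ g, α g (r x) = x := by
    intro x
    have : Quotient.mk s (r x) = Quotient.mk s x := Quotient.out_eq _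
    exact Quotient.exact this
  choose c hc using h1
  refine ⟨r, c, hc, ?_⟩
  intro g x
  have : Quotient.mk s (α g x) = Quotient.mk s x := by
    apply Quotient.sound
    exact ⟨g⁻¹, by simp⟩
  simp only [r, this]

theorem IsSofic.of_coamenable {G X Y : Type} [Group G] (α : G →* Equiv.Perm X)
    (β : G →* Equiv.Perm Y) (hβ : IsSofic β)
    (hco : ∀ x : X, ∃ y : Y, (∀ g, β g y = y → α g x = x) ∧
      IsFolner β {g | α g x = x} {z | ∃ g, α g x = x ∧ β g y = z}) : IsSofic α := by
  classical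
  intro F E ε hε
  obtain ⟨r, c, hc, hr⟩ := exists_orbit_rep α
  choose y hy1 hy2 using hco
  -- the relevant elements of the stabilizers
  let K : X → Finset G := fun ρ => ((E ×ˢ F).filter
    (fun p => α p.2⁻¹ p.1 ∈ E ∧ r p.1 = ρ)).image
      (fun p => (c (α p.2⁻¹ p.1))⁻¹ * p.2⁻¹ * c p.1)
  have hK : ∀ ρ, (K ρ : Set G) ⊆ {g | α g ρ = ρ} := by
    intro ρ g hg
    simp only [K, Finset.coe_image, Set.mem_image, Finset.mem_coe, Finset.mem_filter,
      Finset.mem_product] at hg
    obtain ⟨p, ⟨⟨_, _⟩, _, hρ⟩, rfl⟩ := hg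
    have e1 : α (c p.1) ρ = p.1 := by rw [← hρ]; exact hc _
    have e2 : α (c (α p.2⁻¹ p.1)) ρ = α p.2⁻¹ p.1 := by
      have := hc (α p.2⁻¹ p.1)
      rw [hr, hρ] at this
      exact this
    change α ((c (α p.2⁻¹ p.1))⁻¹ * p.2⁻¹ * c p.1) ρ = ρ
    rw [map_mul, map_mul, Equiv.Perm.mul_apply, Equiv.Perm.mul_apply, e1, map_inv α (c _),
      Equiv.Perm.inv_eq_iff_eq]
    exact e2.symm
  set η : ℝ := ε / (4 * ((F.card : ℝ) * (E.card : ℝ) + 1)) with hηdef
  have hpos : (0 : ℝ) < (F.card : ℝ) * (E.card : ℝ) + 1 := by positivity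
  have hη : 0 < η := by
    rw [hηdef]
    positivity
  choose Φ hΦne hΦsub hΦ using fun ρ => hy2 ρ (K ρ) (hK ρ) η hη
  let Ψ : X → Finset Y := fun x => (Φ (r x)).image (β (c x))
  have hΨcard : ∀ x, (Ψ x).card = (Φ (r x)).card := fun x =>
    Finset.card_image_of_injective _ (β (c x)).injective
  have hΨne : ∀ x, (Ψ x).Nonempty := fun x => (hΦne (r x)).image _
  let E' : Finset Y := E.biUnion Ψ ∪ (E ×ˢ F).biUnion (fun p => (Ψ p.1).image (β p.2⁻¹))
  have hE'1 : ∀ x ∈ E, ∀ z ∈ Ψ x, z ∈ E' := by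
    intro x hx z hz
    exact Finset.mem_union_left _ (Finset.mem_biUnion.2 ⟨x, hx, hz⟩)
  have hE'2 : ∀ x ∈ E, ∀ g ∈ F, ∀ z ∈ Ψ x, β g⁻¹ z ∈ E' := by
    intro x hx g hg z hz
    exact Finset.mem_union_right _ (Finset.mem_biUnion.2 ⟨(x, g), Finset.mem_product.2 ⟨hx, hg⟩,
      Finset.mem_image_of_mem _ hz⟩)
  obtain ⟨A, hA, φ, h1, h2, B, hB, S, π, hS, hinj, heq⟩ := hβ F E' (ε / 2) (by linarith)
  set n := Nat.card B with hn
  have hT : Nonempty (B ≃ Fin n) := ⟨Finite.equivFin B⟩
  have hTfin : Finite (B ≃ Fin n) := inferInstance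
  let m : A → (B ≃ Fin n) → X → ℕ := fun s τ x => (Ψ x).sup (fun z => ((τ (π s z) : Fin n) : ℕ))
  let Bad : G → X → Set (A × (B ≃ Fin n)) := fun g x =>
    {p | p.1 ∈ S ∧ φ g p.1 ∈ S ∧ m (φ g p.1) p.2 x ≠ m p.1 p.2 (α g⁻¹ x)}
  let BadU : Set (A × (B ≃ Fin n)) := {p | ∃ g ∈ F, ∃ x ∈ E, α g⁻¹ x ∈ E ∧ p ∈ Bad g x}
  let S' : Set (A × (B ≃ Fin n)) := (S ×ˢ Set.univ) \ BadU
  -- counting the bad points
  have hbad : ∀ g ∈ F, ∀ x ∈ E, α g⁻¹ x ∈ E →
      (Nat.card (Bad g x) : ℝ) ≤ 2 * η * ((Nat.card A : ℝ) * (Nat.card (B ≃ Fin n) : ℝ)) := by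
    intro g hg x hx hgx
    have hfib : ∀ s : A, (Nat.card {τ : B ≃ Fin n // (s, τ) ∈ Bad g x} : ℝ) ≤
        2 * η * (Nat.card (B ≃ Fin n) : ℝ) := by
      intro s
      by_cases hs : s ∈ S ∧ φ g s ∈ S
      · let U : Finset B := ((Ψ x).image (β g⁻¹)).image (π s)
        let V : Finset B := (Ψ (α g⁻¹ x)).image (π s)
        have hinjU : Set.InjOn (π s) (((Ψ x).image (β g⁻¹) ∪ Ψ (α g⁻¹ x) : Finset Y) : Set Y) := by
          apply (hinj s hs.1).mono
          intro z hz
          rw [Finset.mem_coe, Finset.mem_union] at hz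
          rw [Finset.mem_coe]
          rcases hz with hz | hz
          · obtain ⟨w, hw, rfl⟩ := Finset.mem_image.1 hz
            exact hE'2 x hx g hg w hw
          · exact hE'1 _ hgx z hz
        have hUcard : U.card = (Φ (r x)).card := by
          rw [Finset.card_image_of_injOn (hinjU.mono (by
            intro z hz
            exact Finset.mem_coe.2 (Finset.mem_union_left _ (Finset.mem_coe.1 hz)))),
            Finset.card_image_of_injective _ (β g⁻¹).injective, hΨcard]
        have hVcard : V.card = (Φ (r x)).card := by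
          rw [Finset.card_image_of_injOn (hinjU.mono (by
            intro z hz
            exact Finset.mem_coe.2 (Finset.mem_union_right _ (Finset.mem_coe.1 hz)))),
            hΨcard, hr]
        -- the element of the stabilizer
        set k : G := (c (α g⁻¹ x))⁻¹ * g⁻¹ * c x with hk
        have hkK : k ∈ K (r x) := by
          simp only [K]
          rw [Finset.mem_image]
          exact ⟨(x, g), Finset.mem_filter.2 ⟨Finset.mem_product.2 ⟨hx, hg⟩, hgx, rfl⟩, rfl⟩
        have hkΦ := hΦ (r x) k hkK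
        have hUV : (U \ V).card ≤ Nat.card {z : Y // z ∈ Φ (r x) ∧ β k z ∉ Φ (r x)} := by
          have hsub : U \ V ⊆ ((Φ (r x)).filter (fun z => β k z ∉ Φ (r x))).image
              (fun z => π s (β g⁻¹ (β (c x) z))) := by
            intro b hb
            rw [Finset.mem_sdiff] at hb
            obtain ⟨hbU, hbV⟩ := hb
            simp only [U, Finset.mem_image, Ψ, exists_exists_and_eq_and] at hbU
            obtain ⟨z, hz, rfl⟩ := hbU
            rw [Finset.mem_image]
            refine ⟨z, Finset.mem_filter.2 ⟨hz, fun hkz => hbV ?_⟩, rfl⟩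
            simp only [V, Finset.mem_image, Ψ, exists_exists_and_eq_and]
            refine ⟨β k z, by rw [hr]; exact hkz, ?_⟩
            congr 1
            rw [hk]
            simp
          refine (Finset.card_le_card hsub).trans (Finset.card_image_le.trans (le_of_eq ?_))
          rw [← Nat.card_eq_finsetCard]
          apply Nat.card_congr
          exact Equiv.subtypeEquivRight (fun z => by simp)
        have hVU : (V \ U).card ≤ Nat.card {z : Y // z ∈ Φ (r x) ∧ β k z ∉ Φ (r x)} := by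
          have e1 : (V \ U).card = (U \ V).card := by
            have a1 := Finset.card_sdiff_add_card_inter U V
            have a2 := Finset.card_sdiff_add_card_inter V U
            rw [Finset.inter_comm V U] at a2
            omega
          rw [e1]
          exact hUV
        have hΦpos : 0 < (Φ (r x)).card := Finset.card_pos.2 (hΦne (r x))
        have hcount := count_sup_ne (n := n) U V _ _ hUcard hVcard hΦpos hUV hVU
        have hle : Nat.card {τ : B ≃ Fin n // (s, τ) ∈ Bad g x} ≤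
            Nat.card {τ : B ≃ Fin n //
              U.sup (fun v => (τ v : ℕ)) ≠ V.sup (fun u => (τ u : ℕ))} := by
          have hmap : ∀ τ : B ≃ Fin n, (s, τ) ∈ Bad g x →
              U.sup (fun v => (τ v : ℕ)) ≠ V.sup (fun u => (τ u : ℕ)) := by
            intro τ hτ0 hEq
            have hτ := hτ0.2.2
            apply hτ
            have e1 : m (φ g s) τ x = U.sup (fun v => (τ v : ℕ)) := by
              have u1 : U.sup (fun v => (τ v : ℕ)) =
                  ((Ψ x).image (β g⁻¹)).sup ((fun v => (τ v : ℕ)) ∘ (π s)) :=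
                Finset.sup_image _ _ _
              have u2 : ((Ψ x).image (β g⁻¹)).sup ((fun v => (τ v : ℕ)) ∘ (π s)) =
                  (Ψ x).sup (((fun v => (τ v : ℕ)) ∘ (π s)) ∘ (β g⁻¹)) :=
                Finset.sup_image _ _ _
              rw [u1, u2]
              change (Ψ x).sup _ = _
              apply Finset.sup_congr rfl
              intro z hz
              simp only [Function.comp_apply]
              rw [heq s hs.1 g hg z (hE'1 x hx z hz) hs.2 (hE'2 x hx g hg z hz)]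
            have e2 : m s τ (α g⁻¹ x) = V.sup (fun v => (τ v : ℕ)) := by
              have u1 : V.sup (fun v => (τ v : ℕ)) =
                  (Ψ (α g⁻¹ x)).sup ((fun v => (τ v : ℕ)) ∘ (π s)) :=
                Finset.sup_image _ _ _
              rw [u1]
              rfl
            change m (φ g s) τ x = m s τ (α g⁻¹ x)
            rw [e1, e2, hEq]
          let ff : {τ : B ≃ Fin n // (s, τ) ∈ Bad g x} → {τ : B ≃ Fin n //
              U.sup (fun v => (τ v : ℕ)) ≠ V.sup (fun u => (τ u : ℕ))} :=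
            fun τ => ⟨τ.1, hmap τ.1 τ.2⟩
          have hff : Function.Injective ff := by
            intro τ τ' h
            have h' : (ff τ).1 = (ff τ').1 := congrArg Subtype.val h
            exact Subtype.ext h'
          exact Nat.card_le_card_of_injective ff hff
        have hcount' : (Nat.card {τ : B ≃ Fin n //
            U.sup (fun v => (τ v : ℕ)) ≠ V.sup (fun u => (τ u : ℕ))} : ℝ) *
            ((Φ (r x)).card : ℝ) ≤
            2 * (Nat.card {z : Y // z ∈ Φ (r x) ∧ β k z ∉ Φ (r x)} : ℝ) *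
              (Nat.card (B ≃ Fin n) : ℝ) := by
          exact_mod_cast hcount
        have hΦposR : (0 : ℝ) < ((Φ (r x)).card : ℝ) := by exact_mod_cast hΦpos
        have hTR : (0 : ℝ) ≤ (Nat.card (B ≃ Fin n) : ℝ) := Nat.cast_nonneg _
        have h3 : (Nat.card {τ : B ≃ Fin n //
            U.sup (fun v => (τ v : ℕ)) ≠ V.sup (fun u => (τ u : ℕ))} : ℝ) *
            ((Φ (r x)).card : ℝ) ≤ (2 * η * (Nat.card (B ≃ Fin n) : ℝ)) *
            ((Φ (r x)).card : ℝ) := by
          refine hcount'.trans ?_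
          have : 2 * (Nat.card {z : Y // z ∈ Φ (r x) ∧ β k z ∉ Φ (r x)} : ℝ) *
              (Nat.card (B ≃ Fin n) : ℝ) ≤ 2 * (η * ((Φ (r x)).card : ℝ)) *
              (Nat.card (B ≃ Fin n) : ℝ) := by
            apply mul_le_mul_of_nonneg_right _ hTR
            linarith
          refine this.trans (le_of_eq ?_)
          ring
        have h4 := le_of_mul_le_mul_right h3 hΦposR
        exact (Nat.cast_le.2 hle).trans h4
      · have : IsEmpty {τ : B ≃ Fin n // (s, τ) ∈ Bad g x} := by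
          refine ⟨fun τ => hs ?_⟩
          exact ⟨τ.2.1, τ.2.2.1⟩
        rw [Nat.card_of_isEmpty]
        simp only [Nat.cast_zero]
        positivity
    have hfin : Fintype A := Fintype.ofFinite A
    have hcardEq : Nat.card (Bad g x) =
        ∑ s : A, Nat.card {τ : B ≃ Fin n // (s, τ) ∈ Bad g x} := by
      rw [← Nat.card_sigma]
      apply Nat.card_congr
      refine
        { toFun := fun p => ⟨p.1.1, ⟨p.1.2, p.2⟩⟩
          invFun := fun q => ⟨(q.1, q.2.1), q.2.2⟩
          left_inv := fun p => rfl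
          right_inv := fun q => rfl }
    rw [hcardEq, Nat.cast_sum]
    refine (Finset.sum_le_sum (fun s _ => hfib s)).trans ?_
    rw [Finset.sum_const, nsmul_eq_mul, Finset.card_univ, ← Nat.card_eq_fintype_card]
    apply le_of_eq
    ring
  have hbadU : (Nat.card BadU : ℝ) ≤
      (ε / 2) * ((Nat.card A : ℝ) * (Nat.card (B ≃ Fin n) : ℝ)) := by
    have hsub : BadU ⊆ ⋃ p ∈ ((F ×ˢ E).filter (fun p => α p.1⁻¹ p.2 ∈ E) : Finset (G × X)),
        Bad p.1 p.2 := by
      rintro q ⟨g, hg, x, hx, hgx, hq⟩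
      rw [Set.mem_iUnion₂]
      exact ⟨(g, x), Finset.mem_filter.2 ⟨Finset.mem_product.2 ⟨hg, hx⟩, hgx⟩, hq⟩
    have hle1 : Nat.card BadU ≤ ∑ p ∈ ((F ×ˢ E).filter (fun p => α p.1⁻¹ p.2 ∈ E)),
        Nat.card (Bad p.1 p.2) := by
      have hi := Set.ncard_le_ncard hsub (Set.toFinite _)
      have hii : (⋃ p ∈ ((F ×ˢ E).filter (fun p => α p.1⁻¹ p.2 ∈ E) : Finset (G × X)),
        Bad p.1 p.2).ncard ≤ ∑ p ∈ ((F ×ˢ E).filter (fun p => α p.1⁻¹ p.2 ∈ E)),
        (Bad p.1 p.2).ncard := Finset.set_ncard_biUnion_le _ _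
      exact hi.trans hii
    have hle2 : (Nat.card BadU : ℝ) ≤
        ∑ p ∈ ((F ×ˢ E).filter (fun p => α p.1⁻¹ p.2 ∈ E)), (Nat.card (Bad p.1 p.2) : ℝ) := by
      exact_mod_cast hle1
    refine hle2.trans ?_
    have hle3 : ∑ p ∈ ((F ×ˢ E).filter (fun p => α p.1⁻¹ p.2 ∈ E)),
        (Nat.card (Bad p.1 p.2) : ℝ) ≤
        ∑ p ∈ ((F ×ˢ E).filter (fun p => α p.1⁻¹ p.2 ∈ E)),
          2 * η * ((Nat.card A : ℝ) * (Nat.card (B ≃ Fin n) : ℝ)) := by
      apply Finset.sum_le_sum
      intro p hp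
      rw [Finset.mem_filter, Finset.mem_product] at hp
      exact hbad p.1 hp.1.1 p.2 hp.1.2 hp.2
    refine hle3.trans ?_
    rw [Finset.sum_const, nsmul_eq_mul]
    have hcardle : ((((F ×ˢ E).filter (fun p => α p.1⁻¹ p.2 ∈ E)).card : ℕ) : ℝ) ≤
        (F.card : ℝ) * (E.card : ℝ) + 1 := by
      have : (((F ×ˢ E).filter (fun p => α p.1⁻¹ p.2 ∈ E)).card : ℕ) ≤ F.card * E.card := by
        rw [← Finset.card_product]
        exact Finset.card_filter_le _ _
      have h5 : ((((F ×ˢ E).filter (fun p => α p.1⁻¹ p.2 ∈ E)).card : ℕ) : ℝ) ≤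
        (F.card : ℝ) * (E.card : ℝ) := by exact_mod_cast this
      linarith
    have hnn : (0 : ℝ) ≤ 2 * η * ((Nat.card A : ℝ) * (Nat.card (B ≃ Fin n) : ℝ)) := by
      positivity
    refine (mul_le_mul_of_nonneg_right hcardle hnn).trans (le_of_eq ?_)
    rw [hηdef]
    field_simp
    ring
  refine ⟨A × (B ≃ Fin n), inferInstance, fun g => Equiv.prodCongr (φ g) (Equiv.refl _), ?_, ?_, ?_⟩
  · ext p <;> simp [h1]
  · intro g hg k hk
    have e : (Equiv.prodCongr (φ g) (Equiv.refl _) : Equiv.Perm (A × (B ≃ Fin n))) *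
        Equiv.prodCongr (φ k) (Equiv.refl _) =
        Equiv.prodCongr (φ g * φ k) (Equiv.refl _) := by
      ext q <;> simp
    rw [e]
    refine (hdist_prod_le _ _ _ _).trans_lt ?_
    rw [hdist_self, add_zero]
    have := h2 g hg k hk
    linarith
  · refine isOrbitApprox_of_any α _ F E ε (X × ℕ) S' (fun p x => (r x, m p.1 p.2 x)) ?_ ?_ ?_
    · have hA0 : (0 : ℝ) ≤ (Nat.card A : ℝ) := Nat.cast_nonneg _
      have hT0 : (0 : ℝ) < (Nat.card (B ≃ Fin n) : ℝ) := by exact_mod_cast Nat.card_pos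
      have hc1 : Nat.card (S ×ˢ (Set.univ : Set (B ≃ Fin n)) : Set (A × (B ≃ Fin n))) =
          Nat.card S * Nat.card (B ≃ Fin n) := by
        rw [Nat.card_congr (Equiv.Set.prod S (Set.univ : Set (B ≃ Fin n))), Nat.card_prod,
          Nat.card_congr (Equiv.Set.univ (B ≃ Fin n))]
      have hc2 : Nat.card (S ×ˢ (Set.univ : Set (B ≃ Fin n)) : Set (A × (B ≃ Fin n))) ≤
          Nat.card S' + Nat.card BadU := by
        have hsub : (S ×ˢ (Set.univ : Set (B ≃ Fin n)) : Set (A × (B ≃ Fin n))) ⊆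
            S' ∪ BadU := by
          intro p hp
          by_cases hpb : p ∈ BadU
          · exact Or.inr hpb
          · exact Or.inl ⟨hp, hpb⟩
        exact (Set.ncard_le_ncard hsub (Set.toFinite _)).trans (Set.ncard_union_le _ _)
      have hc3 : (Nat.card S : ℝ) * (Nat.card (B ≃ Fin n) : ℝ) ≤
          (Nat.card S' : ℝ) + (Nat.card BadU : ℝ) := by
        have : Nat.card S * Nat.card (B ≃ Fin n) ≤ Nat.card S' + Nat.card BadU := by
          rw [← hc1]; exact hc2
        exact_mod_cast this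
      rw [Nat.card_prod, Nat.cast_mul]
      have hc4 : (1 - ε / 2) * (Nat.card A : ℝ) * (Nat.card (B ≃ Fin n) : ℝ) <
          (Nat.card S : ℝ) * (Nat.card (B ≃ Fin n) : ℝ) :=
        mul_lt_mul_of_pos_right hS hT0
      have hc5 : (1 - ε) * ((Nat.card A : ℝ) * (Nat.card (B ≃ Fin n) : ℝ)) =
          (1 - ε / 2) * (Nat.card A : ℝ) * (Nat.card (B ≃ Fin n) : ℝ) -
          (ε / 2) * ((Nat.card A : ℝ) * (Nat.card (B ≃ Fin n) : ℝ)) := by ring
      linarith
    · rintro ⟨s, τ⟩ hp x hx x' hx' hxx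
      have hsS : s ∈ S := hp.1.1
      simp only [Prod.mk.injEq] at hxx
      obtain ⟨hrr, hmm⟩ := hxx
      obtain ⟨z, hz, hzmax⟩ := Finset.exists_mem_eq_sup (Ψ x) (hΨne x)
        (fun z => ((τ (π s z) : Fin n) : ℕ))
      obtain ⟨z', hz', hzmax'⟩ := Finset.exists_mem_eq_sup (Ψ x') (hΨne x')
        (fun z => ((τ (π s z) : Fin n) : ℕ))
      have e1 : ((τ (π s z) : Fin n) : ℕ) = ((τ (π s z') : Fin n) : ℕ) := by
        rw [← hzmax, ← hzmax']
        exact hmm
      have e2 : π s z = π s z' := τ.injective (Fin.ext e1)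
      have e3 : z = z' := hinj s hsS (Finset.mem_coe.2 (hE'1 x hx z hz))
        (Finset.mem_coe.2 (hE'1 x' hx' z' hz')) e2
      simp only [Ψ, Finset.mem_image] at hz hz'
      obtain ⟨u, hu, hu1⟩ := hz
      obtain ⟨u', hu', hu1'⟩ := hz'
      obtain ⟨k, hk1, hk2⟩ := hΦsub (r x) (Finset.mem_coe.2 hu)
      obtain ⟨k', hk1', hk2'⟩ := hΦsub (r x') (Finset.mem_coe.2 hu')
      have e4 : β (c x) (β k (y (r x))) = β (c x') (β k' (y (r x))) := by
        rw [hk2, hu1, e3, ← hu1', ← hk2', hrr]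
      have e5 : β ((c x' * k')⁻¹ * (c x * k)) (y (r x)) = y (r x) := by
        rw [map_mul, map_inv, Equiv.Perm.mul_apply, Equiv.Perm.inv_eq_iff_eq, map_mul, map_mul,
          Equiv.Perm.mul_apply, Equiv.Perm.mul_apply]
        exact e4
      have e6 := hy1 (r x) _ e5
      rw [map_mul, map_inv, Equiv.Perm.mul_apply, Equiv.Perm.inv_eq_iff_eq, map_mul, map_mul,
        Equiv.Perm.mul_apply, Equiv.Perm.mul_apply, hk1, hc] at e6
      rw [← hrr] at hk1'
      rw [hk1', hrr, hc] at e6
      exact e6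
    · rintro ⟨s, τ⟩ hp g hg x hx hgp hgx
      have hsS : s ∈ S := hp.1.1
      have hgS : φ g s ∈ S := hgp.1.1
      simp only [Prod.mk.injEq]
      refine ⟨(hr _ _).symm, ?_⟩
      by_contra hne
      apply hp.2
      exact ⟨g, hg, x, hx, hgx, hsS, hgS, hne⟩

end

end Pool.Agent.Helper2.Sofic
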