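import Pool.Agent.Helper2.Sofic.Coamenable

/-!
# Følner sets in orbit intersections are inherited by smaller commuting groups
-/

namespace Pool.Agent.Helper2.Sofic

open Finset

noncomputable section

theorem IsFolner.hered {G H K X : Type} [Group G] [Group H] [Group K] (α : G →* Equiv.Perm X)
    (β : H →* Equiv.Perm X) (comm : ∀ g h, Commute (α g) (β h)) (γ : K →* Equiv.Perm X)
    (hγ : ∀ k, ∃ h, γ k = β h) (x : X)
    (hf : IsFolner α {g | ∃ h, α g x = β h x}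
      {z | (∃ g, z = α g x) ∧ ∃ h, z = β h x}) :
    IsFolner α {g | ∃ k, α g x = γ k x}
      {z | (∃ g, z = α g x) ∧ ∃ k, z = γ k x} := by
  classical
  have hcm : ∀ g h z, α g (β h z) = β h (α g z) := by
    intro g h z
    have := comm g h
    have h2 : (α g * β h) z = (β h * α g) z := by rw [this.eq]
    simpa [Equiv.Perm.mul_apply] using h2
  have hcm' : ∀ g k z, α g (γ k z) = γ k (α g z) := by
    intro g k z
    obtain ⟨h, hh⟩ := hγ k
    rw [hh, hcm]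
  -- the subgroup of elements moving `x` inside its `γ`-orbit
  let P : Subgroup G :=
    { carrier := {g | ∃ k, α g x = γ k x}
      one_mem' := ⟨1, by simp⟩
      mul_mem' := by
        rintro g g' ⟨k, hk⟩ ⟨k', hk'⟩
        refine ⟨k' * k, ?_⟩
        rw [map_mul, map_mul, Equiv.Perm.mul_apply, Equiv.Perm.mul_apply, hk', hcm', hk]
      inv_mem' := by
        rintro g ⟨k, hk⟩
        refine ⟨k⁻¹, ?_⟩
        have h1 : γ k (α g⁻¹ x) = x := by
          rw [← hcm', ← hk]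
          simp
        calc α g⁻¹ x = γ k⁻¹ (γ k (α g⁻¹ x)) := by simp
          _ = γ k⁻¹ x := by rw [h1] }
  intro F hF ε hε
  have hFP : ∀ g ∈ F, g ∈ P := fun g hg => hF (Finset.mem_coe.2 hg)
  obtain ⟨r, c, hc, hr⟩ := exists_orbit_rep (α.comp P.subtype)
  have hr' : ∀ g ∈ P, ∀ z, r (α g z) = r z := fun g hg z => hr ⟨g, hg⟩ z
  have hc' : ∀ z, α (c z : G) (r z) = z := fun z => hc z
  set δ : ℝ := ε / ((F.card : ℝ) + 1) with hδdef
  have hFpos : (0 : ℝ) < (F.card : ℝ) + 1 := by positivity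
  have hδ : 0 < δ := div_pos hε hFpos
  obtain ⟨Φ, hΦne, hΦsub, hΦ⟩ := hf F (by
    intro g hg
    obtain ⟨k, hk⟩ := hF hg
    obtain ⟨h, hh⟩ := hγ k
    exact ⟨h, by rw [hk, hh]⟩) δ hδ
  -- boundary counts as finset cards
  have hbd : ∀ (Θ : Finset X) (g : G), Nat.card {z : X // z ∈ Θ ∧ α g z ∉ Θ} =
      (Θ.filter (fun z => α g z ∉ Θ)).card := by
    intro Θ g
    rw [← Nat.card_eq_finsetCard]
    apply Nat.card_congr
    exact Equiv.subtypeEquivRight (fun z => by simp)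
  -- pigeonhole over the orbits
  have hex : ∃ ρ ∈ Φ.image r, ∑ g ∈ F, ((Φ.filter (fun z => α g z ∉ Φ ∧ r z = ρ)).card : ℝ) ≤
      ε * ((Φ.filter (fun z => r z = ρ)).card : ℝ) := by
    by_contra hcon
    push Not at hcon
    have h1 : ∑ ρ ∈ Φ.image r, ε * ((Φ.filter (fun z => r z = ρ)).card : ℝ) <
        ∑ ρ ∈ Φ.image r, ∑ g ∈ F, ((Φ.filter (fun z => α g z ∉ Φ ∧ r z = ρ)).card : ℝ) :=
      Finset.sum_lt_sum_of_nonempty (hΦne.image _) hcon
    have h2 : ∑ ρ ∈ Φ.image r, ((Φ.filter (fun z => r z = ρ)).card : ℝ) = (Φ.card : ℝ) := by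
      rw [← Nat.cast_sum, ← Finset.card_eq_sum_card_image r Φ]
    have h3 : ∀ g ∈ F, ∑ ρ ∈ Φ.image r, ((Φ.filter (fun z => α g z ∉ Φ ∧ r z = ρ)).card : ℝ) ≤
        δ * (Φ.card : ℝ) := by
      intro g hg
      have e1 : ∑ ρ ∈ Φ.image r, (Φ.filter (fun z => α g z ∉ Φ ∧ r z = ρ)).card =
          (Φ.filter (fun z => α g z ∉ Φ)).card := by
        have := Finset.card_eq_sum_card_fiberwise (f := r)
          (s := Φ.filter (fun z => α g z ∉ Φ)) (t := Φ.image r) (by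
            intro z hz
            rw [Finset.mem_coe, Finset.mem_filter] at hz
            exact Finset.mem_coe.2 (Finset.mem_image_of_mem r hz.1))
        rw [this]
        apply Finset.sum_congr rfl
        intro ρ _
        rw [Finset.filter_filter]
      have e2 := hΦ g hg
      rw [hbd] at e2
      rw [← Nat.cast_sum, e1]
      exact e2
    rw [Finset.sum_comm, ← Finset.mul_sum, h2] at h1
    have h4 : ∑ g ∈ F, ∑ ρ ∈ Φ.image r, ((Φ.filter (fun z => α g z ∉ Φ ∧ r z = ρ)).card : ℝ) ≤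
        (F.card : ℝ) * (δ * (Φ.card : ℝ)) := by
      refine (Finset.sum_le_sum h3).trans ?_
      rw [Finset.sum_const, nsmul_eq_mul]
    have hΦc : (0 : ℝ) ≤ (Φ.card : ℝ) := Nat.cast_nonneg _
    have h5 : (F.card : ℝ) * (δ * (Φ.card : ℝ)) ≤ ε * (Φ.card : ℝ) := by
      have : (F.card : ℝ) * δ ≤ ε := by
        rw [hδdef, mul_div_assoc', div_le_iff₀ hFpos]
        have : (0 : ℝ) ≤ (F.card : ℝ) := Nat.cast_nonneg _
        nlinarith
      calc (F.card : ℝ) * (δ * (Φ.card : ℝ)) = ((F.card : ℝ) * δ) * (Φ.card : ℝ) := by ring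
        _ ≤ ε * (Φ.card : ℝ) := mul_le_mul_of_nonneg_right this hΦc
    linarith
  obtain ⟨ρ, hρ, hsum⟩ := hex
  obtain ⟨z₀, hz₀Φ, hz₀⟩ := Finset.mem_image.1 hρ
  obtain ⟨⟨a, ha⟩, b, hb⟩ := hΦsub (Finset.mem_coe.2 hz₀Φ)
  set Θ : Finset X := Φ.filter (fun z => r z = ρ) with hΘ
  have hinj : Function.Injective (β b⁻¹) := (β b⁻¹).injective
  refine ⟨Θ.image (β b⁻¹), ?_, ?_, ?_⟩
  · exact Finset.Nonempty.image ⟨z₀, Finset.mem_filter.2 ⟨hz₀Φ, hz₀⟩⟩ _
  · intro w hw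
    rw [Finset.mem_coe, Finset.mem_image] at hw
    obtain ⟨z, hz, rfl⟩ := hw
    rw [hΘ, Finset.mem_filter] at hz
    have e1 : α ((c z : G) * (c z₀ : G)⁻¹) z₀ = z := by
      have h1 := hc' z
      have h2 := hc' z₀
      rw [hz.2] at h1
      rw [hz₀] at h2
      rw [map_mul, Equiv.Perm.mul_apply]
      calc α (c z : G) (α (c z₀ : G)⁻¹ z₀) = α (c z : G) (α (c z₀ : G)⁻¹ (α (c z₀ : G) ρ)) := by
            rw [h2]
        _ = α (c z : G) ρ := by simp
        _ = z := h1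
    have e2 : ((c z : G) * (c z₀ : G)⁻¹) ∈ P := P.mul_mem (c z).2 (P.inv_mem (c z₀).2)
    have e3 : β b⁻¹ z = α ((c z : G) * (c z₀ : G)⁻¹) x := by
      have e0 : β b⁻¹ z₀ = x := by rw [hb]; simp
      calc β b⁻¹ z = β b⁻¹ (α ((c z : G) * (c z₀ : G)⁻¹) z₀) := by rw [e1]
        _ = α ((c z : G) * (c z₀ : G)⁻¹) (β b⁻¹ z₀) := (hcm _ _ _).symm
        _ = α ((c z : G) * (c z₀ : G)⁻¹) x := by rw [e0]
    obtain ⟨k, hk⟩ := e2
    exact ⟨⟨_, e3⟩, k, by rw [e3, hk]⟩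
  · intro g hg
    rw [hbd, Finset.card_image_of_injective _ hinj]
    have hle : ((Θ.image (β b⁻¹)).filter (fun z => α g z ∉ Θ.image (β b⁻¹))).card ≤
        (Φ.filter (fun z => α g z ∉ Φ ∧ r z = ρ)).card := by
      have hsub : (Θ.image (β b⁻¹)).filter (fun z => α g z ∉ Θ.image (β b⁻¹)) ⊆
          (Φ.filter (fun z => α g z ∉ Φ ∧ r z = ρ)).image (β b⁻¹) := by
        intro w hw
        rw [Finset.mem_filter, Finset.mem_image] at hw
        obtain ⟨⟨z, hz, rfl⟩, hw2⟩ := hw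
        rw [Finset.mem_image]
        refine ⟨z, ?_, rfl⟩
        rw [hΘ, Finset.mem_filter] at hz
        rw [Finset.mem_filter]
        refine ⟨hz.1, fun hcon => hw2 ?_, hz.2⟩
        rw [Finset.mem_image]
        refine ⟨α g z, ?_, (hcm g b⁻¹ z).symm⟩
        rw [hΘ, Finset.mem_filter]
        exact ⟨hcon, by rw [hr' g (hFP g hg), hz.2]⟩
      exact (Finset.card_le_card hsub).trans Finset.card_image_le
    have hle2 : ((Φ.filter (fun z => α g z ∉ Φ ∧ r z = ρ)).card : ℝ) ≤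
        ∑ g ∈ F, ((Φ.filter (fun z => α g z ∉ Φ ∧ r z = ρ)).card : ℝ) :=
      Finset.single_le_sum (f := fun g => ((Φ.filter (fun z => α g z ∉ Φ ∧ r z = ρ)).card : ℝ))
        (fun _ _ => Nat.cast_nonneg _) hg
    calc (((Θ.image (β b⁻¹)).filter (fun z => α g z ∉ Θ.image (β b⁻¹))).card : ℝ) ≤
        ((Φ.filter (fun z => α g z ∉ Φ ∧ r z = ρ)).card : ℝ) := by exact_mod_cast hle
      _ ≤ _ := hle2
      _ ≤ ε * (Θ.card : ℝ) := hsum

end

end Pool.Agent.Helper2.Sofic
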