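import Pool.Agent.Helper2.Sofic.Pair
import Pool.Agent.Helper2.Sofic.Hered

/-!
# The direct sum of commuting sofic actions with amenable orbit intersections
-/

namespace Pool.Agent.Helper2.Sofic

open Finset

noncomputable section

/-- Evaluation at a coordinate. -/
def ev {I : Type} (G : I → Type) [∀ i, Group (G i)] (i : I) : DSum G →* G i where
  toFun f := f.1 i
  map_one' := rfl
  map_mul' _ _ := rfl

open Classical in
/-- Keep the coordinates in the set `S`. -/
def trunc {I : Type} (G : I → Type) [∀ i, Group (G i)] (S : Set I) : DSum G →* DSum G where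
  toFun f := ⟨fun i => if i ∈ S then f.1 i else 1, by
    refine Set.Finite.subset f.2 ?_
    intro i hi
    simp only [ne_eq, Set.mem_ofPred_eq, ite_eq_right_iff, Classical.not_imp] at hi
    exact hi.2⟩
  map_one' := by
    apply Subtype.ext
    funext i
    change (if i ∈ S then (1 : G i) else 1) = 1
    simp
  map_mul' f g := by
    apply Subtype.ext
    funext i
    change (if i ∈ S then (f.1 i * g.1 i) else 1) =
      (if i ∈ S then f.1 i else 1) * (if i ∈ S then g.1 i else 1)
    split_ifs <;> simp

theorem trunc_mem {I : Type} (G : I → Type) [∀ i, Group (G i)] (S : Set I) (f : DSum G)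
    (i : I) (hi : i ∈ S) : (trunc G S f).1 i = f.1 i := by
  classical
  change (if i ∈ S then f.1 i else 1) = f.1 i
  simp [hi]

theorem trunc_not_mem {I : Type} (G : I → Type) [∀ i, Group (G i)] (S : Set I) (f : DSum G)
    (i : I) (hi : i ∉ S) : (trunc G S f).1 i = 1 := by
  classical
  change (if i ∈ S then f.1 i else 1) = 1
  simp [hi]

open Classical in
theorem main {I X : Type} (G : I → Type) [∀ i, Group (G i)] (γ : DSum G →* Equiv.Perm X)
    (α : ∀ i, G i →* Equiv.Perm X)
    (hα : ∀ i (f : DSum G), (∀ j, j ≠ i → f.1 j = 1) → γ f = α i (f.1 i))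
    (sofic : ∀ i, IsSofic (α i)) (J : Set I) (hJ : J.Subsingleton)
    (amen : ∀ i, i ∉ J → ∀ x, IsFolner (α i)
      {g | ∃ f : DSum G, f.1 i = 1 ∧ α i g x = γ f x}
      {z | (∃ g, z = α i g x) ∧ ∃ f : DSum G, f.1 i = 1 ∧ z = γ f x}) : IsSofic γ := by
  have hsplit : ∀ (i : I) (S : Set I), i ∉ S → ∀ f : DSum G,
      γ (trunc G (insert i S) f) = α i (f.1 i) * γ (trunc G S f) := by
    intro i S hiS f
    have e : trunc G (insert i S) f = trunc G {i} f * trunc G S f := by
      apply Subtype.ext
      funext j
      change _ = (trunc G {i} f).1 j * (trunc G S f).1 j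
      by_cases hj : j = i
      · subst hj
        rw [trunc_mem G _ f j (Set.mem_insert _ _), trunc_mem G _ f j (Set.mem_singleton _),
          trunc_not_mem G S f j hiS, mul_one]
      · rw [trunc_not_mem G {i} f j (by simpa using hj), one_mul]
        by_cases hjS : j ∈ S
        · rw [trunc_mem G _ f j (Set.mem_insert_of_mem _ hjS), trunc_mem G _ f j hjS]
        · rw [trunc_not_mem G _ f j (by
            intro h
            rcases Set.mem_insert_iff.1 h with h | h
            · exact hj h
            · exact hjS h), trunc_not_mem G _ f j hjS]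
    rw [e, map_mul, hα i (trunc G {i} f) (fun j hj => trunc_not_mem G _ f j (by simpa using hj)),
      trunc_mem G _ f i (Set.mem_singleton _)]
  -- single elements
  have hsingle : ∀ (i : I) (g : G i), ∃ f : DSum G, (∀ j, j ≠ i → f.1 j = 1) ∧ f.1 i = g := by
    intro i g
    refine ⟨⟨Function.update 1 i g, ?_⟩, ?_, ?_⟩
    · refine Set.Finite.subset (Set.finite_singleton i) ?_
      intro j hj
      by_contra hne
      apply hj
      change Function.update (1 : ∀ j, G j) i g j = 1
      rw [Function.update_of_ne (by simpa using hne)]
      rfl
    · intro j hj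
      change Function.update (1 : ∀ j, G j) i g j = 1
      rw [Function.update_of_ne hj]
      rfl
    · change Function.update (1 : ∀ j, G j) i g i = g
      rw [Function.update_self]
  have hcomm : ∀ (i : I) (g : G i) (f : DSum G), f.1 i = 1 → Commute (α i g) (γ f) := by
    intro i g f hf
    obtain ⟨k, hk1, hk2⟩ := hsingle i g
    have e1 : α i g = γ k := by rw [hα i k hk1, hk2]
    have e2 : k * f = f * k := by
      apply Subtype.ext
      funext j
      change k.1 j * f.1 j = f.1 j * k.1 j
      by_cases hj : j = i
      · subst hj
        rw [hf, one_mul, mul_one]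
      · rw [hk1 j hj, one_mul, mul_one]
    rw [e1]
    change γ k * γ f = γ f * γ k
    rw [← map_mul, e2, map_mul]
  -- induction over finite sets of indices
  have hind : ∀ T : Finset I, IsSofic (γ.comp (trunc G (↑T ∪ J))) := by
    intro T
    induction T using Finset.induction_on with
    | empty =>
      rw [Finset.coe_empty, Set.empty_union]
      rcases hJ.eq_empty_or_singleton with h | ⟨i, h⟩
      · apply isSofic_trivial
        intro f
        have : trunc G J f = 1 := by
          apply Subtype.ext
          funext j
          rw [trunc_not_mem G J f j (by rw [h]; exact Set.notMem_empty _)]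
          rfl
        rw [MonoidHom.comp_apply, this, map_one]
      · have : γ.comp (trunc G J) = (α i).comp (ev G i) := by
          ext1 f
          rw [MonoidHom.comp_apply, MonoidHom.comp_apply, h,
            hα i (trunc G {i} f) (fun j hj => trunc_not_mem G _ f j (by simpa using hj)),
            trunc_mem G _ f i (Set.mem_singleton _)]
          rfl
        rw [this]
        exact (sofic i).pullback _
    | insert i T hiT ih =>
      by_cases hiJ : i ∈ J
      · have : (↑(insert i T) ∪ J : Set I) = ↑T ∪ J := by
          rw [Finset.coe_insert, Set.insert_union, Set.insert_eq_of_mem (Set.mem_union_right _ hiJ)]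
        rw [this]
        exact ih
      · have hiS : i ∉ (↑T ∪ J : Set I) := by
          intro h
          rcases h with h | h
          · exact hiT (Finset.mem_coe.1 h)
          · exact hiJ h
        set S : Set I := ↑T ∪ J with hS
        have hins : (↑(insert i T) ∪ J : Set I) = insert i S := by
          rw [Finset.coe_insert, Set.insert_union]
        rw [hins]
        have hcommS : ∀ (g : G i) (f : DSum G), Commute (α i g) ((γ.comp (trunc G S)) f) :=
          fun g f => hcomm i g _ (trunc_not_mem G S f i hiS)
        have e : γ.comp (trunc G (insert i S)) =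
            ((α i).noncommCoprod (γ.comp (trunc G S)) hcommS).comp
              ((ev G i).prod (MonoidHom.id _)) := by
          ext1 f
          rw [MonoidHom.comp_apply, MonoidHom.comp_apply, MonoidHom.noncommCoprod_apply,
            hsplit i S hiS]
          rfl
        rw [e]
        apply IsSofic.pullback
        apply IsSofic.pair
        · exact sofic i
        · exact ih
        · intro x
          have hi' : ∀ f : DSum G, (trunc G {i}ᶜ f).1 i = 1 :=
            fun f => trunc_not_mem G _ f i (by simp)
          have hcomm' : ∀ (g : G i) (f : DSum G),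
              Commute (α i g) ((γ.comp (trunc G {i}ᶜ)) f) := fun g f => hcomm i g _ (hi' f)
          have hfix : ∀ f : DSum G, f.1 i = 1 → trunc G {i}ᶜ f = f := by
            intro f hf
            apply Subtype.ext
            funext j
            by_cases hj : j = i
            · subst hj
              rw [hi', hf]
            · rw [trunc_mem G _ f j (by simpa using hj)]
          refine IsFolner.hered (α i) (γ.comp (trunc G {i}ᶜ)) hcomm' (γ.comp (trunc G S)) ?_ x ?_
          · intro f
            refine ⟨trunc G S f, ?_⟩
            rw [MonoidHom.comp_apply, MonoidHom.comp_apply,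
              hfix _ (trunc_not_mem G S f i hiS)]
          · have hA : {g | ∃ f : DSum G, f.1 i = 1 ∧ α i g x = γ f x} =
                {g | ∃ f, α i g x = (γ.comp (trunc G {i}ᶜ)) f x} := by
              ext g
              constructor
              · rintro ⟨f, hf1, hf2⟩
                exact ⟨f, by rw [MonoidHom.comp_apply, hfix f hf1, hf2]⟩
              · rintro ⟨f, hf⟩
                exact ⟨trunc G {i}ᶜ f, hi' f, hf⟩
            have hB : {z | (∃ g, z = α i g x) ∧ ∃ f : DSum G, f.1 i = 1 ∧ z = γ f x} =
                {z | (∃ g, z = α i g x) ∧ ∃ f, z = (γ.comp (trunc G {i}ᶜ)) f x} := by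
              ext z
              constructor
              · rintro ⟨h1, f, hf1, hf2⟩
                exact ⟨h1, f, by rw [MonoidHom.comp_apply, hfix f hf1, hf2]⟩
              · rintro ⟨h1, f, hf⟩
                exact ⟨h1, trunc G {i}ᶜ f, hi' f, hf⟩
            rw [← hA, ← hB]
            exact amen i hiJ x
  -- conclusion
  intro F E ε hε
  let T : Finset I := F.biUnion (fun f => Set.Finite.toFinset f.2)
  obtain ⟨A, hA, φ, h1, h2, B, hB, S, π, hS, hinj, heq⟩ := hind T F E ε hε
  refine ⟨A, hA, φ, h1, h2, B, hB, S, π, hS, hinj, ?_⟩
  intro s hs g hg x hx h3 h4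
  have e : trunc G (↑T ∪ J) g⁻¹ = g⁻¹ := by
    apply Subtype.ext
    funext j
    by_cases hj : j ∈ (↑T ∪ J : Set I)
    · rw [trunc_mem G _ _ j hj]
    · rw [trunc_not_mem G _ _ j hj]
      have hgj : g.1 j = 1 := by
        by_contra hne
        apply hj
        left
        rw [Finset.mem_coe, Finset.mem_biUnion]
        exact ⟨g, hg, by simpa using hne⟩
      change 1 = (g.1 j)⁻¹
      rw [hgj, inv_one]
  have h4' : (γ.comp (trunc G (↑T ∪ J))) g⁻¹ x ∈ E := by
    rw [MonoidHom.comp_apply, e]
    exact h4
  have := heq s hs g hg x hx h3 h4'
  rw [MonoidHom.comp_apply, e] at this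
  exact this

end

end Pool.Agent.Helper2.Sofic
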