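import Pool.Agent.Helper2.Sofic.Coamenable

/-!
# Two commuting sofic actions with amenable orbit intersections
-/

namespace Pool.Agent.Helper2.Sofic

open Finset

noncomputable section

theorem IsSofic.pair {G H X : Type} [Group G] [Group H] (α : G →* Equiv.Perm X)
    (β : H →* Equiv.Perm X) (comm : ∀ g h, Commute (α g) (β h))
    (hα : IsSofic α) (hβ : IsSofic β)
    (hf : ∀ x, IsFolner α {g | ∃ h, α g x = β h x}
      {z | (∃ g, z = α g x) ∧ ∃ h, z = β h x}) :
    IsSofic (α.noncommCoprod β comm) := by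
  classical
  have hcm : ∀ g h z, α g (β h z) = β h (α g z) := by
    intro g h z
    have := comm g h
    have h2 : (α g * β h) z = (β h * α g) z := by rw [this.eq]
    simpa [Equiv.Perm.mul_apply] using h2
  have hap : ∀ (p : G × H) (z : X), (α.noncommCoprod β comm) p z = α p.1 (β p.2 z) := by
    intro p z
    rw [MonoidHom.noncommCoprod_apply, Equiv.Perm.mul_apply]
  have hinvα : ∀ g z, α g⁻¹ (α g z) = z := by
    intro g z; simp
  have hinvα' : ∀ g z, α g (α g⁻¹ z) = z := by
    intro g z; simp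
  have hinvβ : ∀ g z, β g⁻¹ (β g z) = z := by
    intro g z; simp
  have hinvβ' : ∀ g z, β g (β g⁻¹ z) = z := by
    intro g z; simp
  refine IsSofic.of_coamenable (α.noncommCoprod β comm) (prodAct α β) (hα.prod hβ) ?_
  intro x
  refine ⟨(x, x), ?_, ?_⟩
  · rintro ⟨g, h⟩ hgh
    have h1 : α g x = x := congrArg Prod.fst hgh
    have h2 : β h x = x := congrArg Prod.snd hgh
    rw [hap]
    change α g (β h x) = x
    rw [h2, h1]
  · intro F hF ε hε
    have hF' : ∀ p ∈ F, α p.1 (β p.2 x) = x := by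
      intro p hp
      have : (α.noncommCoprod β comm) p x = x := hF (Finset.mem_coe.2 hp)
      rw [hap] at this
      exact this
    -- Følner set
    obtain ⟨Φ, hΦne, hΦsub, hΦ⟩ := hf x (F.image Prod.fst) (by
      intro g hg
      rw [Finset.mem_coe, Finset.mem_image] at hg
      obtain ⟨p, hp, rfl⟩ := hg
      refine ⟨p.2⁻¹, ?_⟩
      have h1 := hF' p hp
      rw [hcm] at h1
      calc α p.1 x = β p.2⁻¹ (β p.2 (α p.1 x)) := (hinvβ _ _).symm
        _ = β p.2⁻¹ x := by rw [h1]) ε hε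
    -- well-definedness
    have hwd : ∀ (a b : G) (h : H), α a x = α b x → α a x = β h x → α a⁻¹ x = α b⁻¹ x := by
      intro a b h hab hah
      have key : ∀ c : G, α c x = β h x → α c⁻¹ x = β h⁻¹ x := by
        intro c hc
        calc α c⁻¹ x = α c⁻¹ (β h⁻¹ (β h x)) := by rw [hinvβ]
          _ = α c⁻¹ (β h⁻¹ (α c x)) := by rw [hc]
          _ = β h⁻¹ (α c⁻¹ (α c x)) := by rw [hcm]
          _ = β h⁻¹ x := by rw [hinvα]
      rw [key a hah, key b (hab ▸ hah)]
    let Z : Set X := {z | (∃ g, z = α g x) ∧ ∃ h, z = β h x}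
    have hZ : ∀ z : X, ∃ a : G, z ∈ Z → z = α a x := by
      intro z
      by_cases hz : z ∈ Z
      · obtain ⟨a, ha⟩ := hz.1
        exact ⟨a, fun _ => ha⟩
      · exact ⟨1, fun h => absurd h hz⟩
    choose a ha using hZ
    let θ : X → X × X := fun z => (z, α (a z)⁻¹ x)
    have hθinj : Function.Injective θ := by
      intro z z' h
      exact congrArg Prod.fst h
    refine ⟨Φ.image θ, hΦne.image _, ?_, ?_⟩
    · intro w hw
      rw [Finset.mem_coe, Finset.mem_image] at hw
      obtain ⟨z, hz, rfl⟩ := hw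
      have hzZ : z ∈ Z := hΦsub (Finset.mem_coe.2 hz)
      obtain ⟨b, hb⟩ := hzZ.2
      have hz1 := ha z hzZ
      have e1 : α (a z)⁻¹ x = β b⁻¹ x := by
        calc α (a z)⁻¹ x = α (a z)⁻¹ (β b⁻¹ (β b x)) := by rw [hinvβ]
          _ = α (a z)⁻¹ (β b⁻¹ (α (a z) x)) := by rw [← hb, ← hz1]
          _ = β b⁻¹ (α (a z)⁻¹ (α (a z) x)) := by rw [hcm]
          _ = β b⁻¹ x := by rw [hinvα]
      refine ⟨(a z, b⁻¹), ?_, ?_⟩
      · rw [hap]
        change α (a z) (β b⁻¹ x) = x
        rw [← e1, hinvα']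
      · change (α (a z) x, β b⁻¹ x) = (z, α (a z)⁻¹ x)
        rw [← hz1, e1]
    · intro p hp
      rw [Finset.card_image_of_injective _ hθinj]
      have h1 := hΦ p.1 (Finset.mem_image_of_mem _ hp)
      refine le_trans ?_ h1
      have hsub : ∀ w : X × X, w ∈ Φ.image θ → (prodAct α β) p w ∉ Φ.image θ →
          w.1 ∈ Φ ∧ α p.1 w.1 ∉ Φ := by
        intro w hw hw'
        rw [Finset.mem_image] at hw
        obtain ⟨z, hz, rfl⟩ := hw
        refine ⟨hz, fun hcon => hw' ?_⟩
        rw [Finset.mem_image]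
        refine ⟨α p.1 z, hcon, ?_⟩
        have hzZ : z ∈ Z := hΦsub (Finset.mem_coe.2 hz)
        have hgzZ : α p.1 z ∈ Z := hΦsub (Finset.mem_coe.2 hcon)
        have hz1 := ha z hzZ
        have hgz1 := ha _ hgzZ
        change (α p.1 z, α (a (α p.1 z))⁻¹ x) = (α p.1 z, β p.2 (α (a z)⁻¹ x))
        congr 1
        obtain ⟨b, hb⟩ := hgzZ.2
        have e2 : α (a (α p.1 z)) x = α (p.1 * a z) x := by
          rw [← hgz1, map_mul, Equiv.Perm.mul_apply, ← hz1]
        rw [hwd _ _ b e2 (by rw [← hgz1, hb])]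
        rw [mul_inv_rev, map_mul, Equiv.Perm.mul_apply, ← hcm]
        congr 1
        have h3 := hF' p hp
        calc α p.1⁻¹ x = α p.1⁻¹ (α p.1 (β p.2 x)) := by rw [h3]
          _ = β p.2 x := by rw [hinvα]
      have hle : Nat.card {w : X × X // w ∈ Φ.image θ ∧ (prodAct α β) p w ∉ Φ.image θ} ≤
          Nat.card {z : X // z ∈ Φ ∧ α p.1 z ∉ Φ} := by
        have hfin : Finite {z : X // z ∈ Φ ∧ α p.1 z ∉ Φ} := by
          apply Set.Finite.subset (Finset.finite_toSet Φ)
          intro z hz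
          exact hz.1
        let ff : {w : X × X // w ∈ Φ.image θ ∧ (prodAct α β) p w ∉ Φ.image θ} →
          {z : X // z ∈ Φ ∧ α p.1 z ∉ Φ} := fun w => ⟨w.1.1, hsub w.1 w.2.1 w.2.2⟩
        have hff : Function.Injective ff := by
          intro w w' h
          have h' : w.1.1 = w'.1.1 := congrArg Subtype.val h
          apply Subtype.ext
          obtain ⟨z, _, hz⟩ := Finset.mem_image.1 w.2.1
          obtain ⟨z', _, hz'⟩ := Finset.mem_image.1 w'.2.1
          rw [← hz, ← hz'] at h' ⊢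
          have : z = z' := h'
          rw [this]
        exact Nat.card_le_card_of_injective ff hff
      exact_mod_cast hle

end

end Pool.Agent.Helper2.Sofic
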